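import Mathlib

/-!
# Logarithmic cutoff functions on `ℤ × ℤ`
-/

open Finset

namespace Pool.Agent.H926Doyle

/-- The sup norm on `ℤ × ℤ`. -/
def nrm (v : ℤ × ℤ) : ℕ := max v.1.natAbs v.2.natAbs

/-- Harmonic sums. -/
noncomputable def hs (n : ℕ) : ℝ := ∑ i ∈ range n, 1 / ((i : ℝ) + 1)

theorem hs_succ (n : ℕ) : hs (n + 1) = hs n + 1 / ((n : ℝ) + 1) := by
  unfold hs; rw [sum_range_succ]

theorem hs_zero : hs 0 = 0 := by simp [hs]

theorem hs_mono {m n : ℕ} (h : m ≤ n) : hs m ≤ hs n := by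
  unfold hs
  apply sum_le_sum_of_subset_of_nonneg (range_mono h)
  intros; positivity

theorem hs_pos {n : ℕ} (h : 1 ≤ n) : 1 ≤ hs n := by
  have := hs_mono h
  rw [hs_succ, hs_zero] at this
  simpa using this

theorem hs_nonneg (n : ℕ) : 0 ≤ hs n := by
  have := hs_mono (Nat.zero_le n)
  rwa [hs_zero] at this

theorem tendsto_hs : Filter.Tendsto hs Filter.atTop Filter.atTop :=
  Real.tendsto_sum_range_one_div_nat_succ_atTop

/-- The cutoff function. -/
noncomputable def cut (K : ℕ) (v : ℤ × ℤ) : ℝ := max 0 (1 - hs (nrm v) / hs K)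

theorem cut_nonneg (K : ℕ) (v : ℤ × ℤ) : 0 ≤ cut K v := le_max_left _ _

theorem cut_zero {K : ℕ} (hK : 1 ≤ K) {v : ℤ × ℤ} (h : K ≤ nrm v) : cut K v = 0 := by
  unfold cut
  apply max_eq_left
  have h1 := hs_pos hK
  have h2 := hs_mono h
  have : 1 ≤ hs (nrm v) / hs K := by rw [le_div_iff₀ (by linarith)]; linarith
  linarith

theorem cut_ge (K : ℕ) (v : ℤ × ℤ) : 1 - hs (nrm v) / hs K ≤ cut K v := le_max_right _ _

theorem hs_diff {m n : ℕ} (h1 : m ≤ n) (h2 : n ≤ m + 1) : hs n - hs m ≤ 1 / ((m : ℝ) + 1) := by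
  rcases Nat.lt_or_ge m n with h | h
  · have : n = m + 1 := by omega
    rw [this, hs_succ]; linarith
  · have : n = m := by omega
    rw [this]; simp; positivity

theorem cut_diff_aux {K : ℕ} (hK : 1 ≤ K) {m n k : ℕ} (h1 : m ≤ n) (h2 : n ≤ m + 1)
    (h3 : k ≤ m + 1) :
    |max 0 (1 - hs m / hs K) - max 0 (1 - hs n / hs K)| ≤ 2 / (((k : ℝ) + 1) * hs K) := by
  have hp := hs_pos hK
  have hp0 : 0 < hs K := by linarith
  have e1 : |max 0 (1 - hs m / hs K) - max 0 (1 - hs n / hs K)|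
      ≤ |(1 - hs m / hs K) - (1 - hs n / hs K)| := by
    have := abs_max_sub_max_le_max (0 : ℝ) (1 - hs m / hs K) 0 (1 - hs n / hs K)
    refine this.trans ?_
    simp
  refine e1.trans ?_
  have e2 : (1 - hs m / hs K) - (1 - hs n / hs K) = (hs n - hs m) / hs K := by ring
  rw [e2, abs_of_nonneg (div_nonneg (by linarith [hs_mono h1]) hp0.le)]
  have e3 := hs_diff h1 h2
  rw [div_le_div_iff₀ hp0 (by positivity)]
  have e4 : (hs n - hs m) * ((k : ℝ) + 1) ≤ 2 := by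
    have hk : (k : ℝ) + 1 ≤ 2 * ((m : ℝ) + 1) := by
      have : (k : ℝ) ≤ m + 1 := by exact_mod_cast h3
      have : (0 : ℝ) ≤ m := Nat.cast_nonneg _
      linarith
    calc (hs n - hs m) * ((k : ℝ) + 1) ≤ (1 / ((m : ℝ) + 1)) * (2 * ((m : ℝ) + 1)) := by
          apply mul_le_mul e3 hk (by positivity) (by positivity)
      _ = 2 := by field_simp
  nlinarith

theorem cut_diff {K : ℕ} (hK : 1 ≤ K) {v i j : ℤ × ℤ} (h1 : nrm i ≤ nrm j + 1)
    (h2 : nrm j ≤ nrm i + 1) (h3 : nrm v ≤ nrm i + 1) (h4 : nrm v ≤ nrm j + 1) :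
    (cut K i - cut K j) ^ 2 ≤ 4 / (((nrm v : ℝ) + 1) ^ 2 * hs K ^ 2) := by
  have hp0 : 0 < hs K := by linarith [hs_pos hK]
  have key : |cut K i - cut K j| ≤ 2 / (((nrm v : ℝ) + 1) * hs K) := by
    unfold cut
    rcases le_total (nrm i) (nrm j) with h | h
    · exact cut_diff_aux hK h h2 h3
    · rw [abs_sub_comm]; exact cut_diff_aux hK h h1 h4
  have : (cut K i - cut K j) ^ 2 ≤ (2 / (((nrm v : ℝ) + 1) * hs K)) ^ 2 := by
    rw [← sq_abs]
    exact pow_le_pow_left₀ (abs_nonneg _) key 2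
  refine this.trans (le_of_eq ?_)
  field_simp
  norm_num

/-- Boxes. -/
noncomputable def box (K : ℕ) : Finset (ℤ × ℤ) := Icc (-(K : ℤ)) K ×ˢ Icc (-(K : ℤ)) K

theorem mem_box {K : ℕ} {v : ℤ × ℤ} : v ∈ box K ↔ nrm v ≤ K := by
  unfold box nrm
  simp only [mem_product, mem_Icc]
  omega

theorem card_box (K : ℕ) : (box K).card = (2 * K + 1) * (2 * K + 1) := by
  unfold box
  rw [card_product, Int.card_Icc]
  congr 1 <;> omega

theorem sum_box (K : ℕ) : ∑ v ∈ box K, 1 / ((nrm v : ℝ) + 1) ^ 2 ≤ 8 * hs (K + 1) := by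
  induction K with
  | zero =>
    have : box 0 = {(0, 0)} := by decide
    rw [this, sum_singleton, hs_succ, hs_zero]
    simp [nrm]
  | succ K ih =>
    have hsub : box K ⊆ box (K + 1) := by
      intro v hv
      rw [mem_box] at *
      omega
    rw [← sum_sdiff hsub]
    have hc : (box (K + 1) \ box K).card = 8 * K + 8 := by
      rw [card_sdiff_of_subset hsub, card_box, card_box]
      have : (2 * (K + 1) + 1) * (2 * (K + 1) + 1) = (2 * K + 1) * (2 * K + 1) + (8 * K + 8) := by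
        ring
      omega
    have h2 : ∑ v ∈ box (K + 1) \ box K, 1 / ((nrm v : ℝ) + 1) ^ 2
        = (8 * K + 8) * (1 / ((K : ℝ) + 1 + 1) ^ 2) := by
      have : ∀ v ∈ box (K + 1) \ box K, 1 / ((nrm v : ℝ) + 1) ^ 2 = 1 / ((K : ℝ) + 1 + 1) ^ 2 := by
        intro v hv
        rw [mem_sdiff, mem_box, mem_box] at hv
        have : nrm v = K + 1 := by omega
        rw [this]
        push_cast
        rfl
      rw [sum_congr rfl this, sum_const, hc]
      simp
    rw [h2, hs_succ (K + 1)]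
    have h3 : (8 * (K : ℝ) + 8) * (1 / ((K : ℝ) + 1 + 1) ^ 2) ≤ 8 * (1 / (((K + 1 : ℕ) : ℝ) + 1)) := by
      push_cast
      have hK : (0 : ℝ) ≤ K := Nat.cast_nonneg _
      rw [mul_one_div, mul_one_div, div_le_div_iff₀ (by positivity) (by positivity)]
      nlinarith
    linarith

end Pool.Agent.H926Doyle
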