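import Pool.Agent.H926_Doyle.Tri

open Real

namespace Pool.Agent.H926Doyle

/-- Lower bound for the conductances. -/
noncomputable def kap (M : ℝ) : ℝ := exp (-(5 * M + log 3) / 2 - log 2)

theorem kap_pos (M : ℝ) : 0 < kap M := exp_pos _

theorem inr_le (x y z : ℝ) : inr x y z ≤ (exp x + exp y) / 2 := by
  have h := inr_sq x y z
  have hp := inr_pos x y z
  have hx := exp_pos x
  have hy := exp_pos y
  have hz := exp_pos z
  have h2 : inr x y z ^ 2 ≤ exp x * exp y := by
    by_contra hc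
    push Not at hc
    have : exp x * exp y * exp z < inr x y z ^ 2 * (exp x + exp y + exp z) := by
      have h3 : exp x * exp y * exp z < inr x y z ^ 2 * exp z :=
        mul_lt_mul_of_pos_right hc hz
      have h4 : 0 < inr x y z ^ 2 * (exp x + exp y) := by positivity
      nlinarith
    linarith
  nlinarith [sq_nonneg (exp x - exp y), sq_nonneg (inr x y z - (exp x + exp y) / 2)]

theorem kap_le (x y z M : ℝ) (hxy : |x - y| ≤ M) (hxz : |x - z| ≤ M) :
    kap M ≤ inr x y z / (exp x + exp y) := by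
  have hM : 0 ≤ M := (abs_nonneg _).trans hxy
  rw [abs_le] at hxy hxz
  have hS : 0 < exp x + exp y + exp z := by positivity
  have hS2 : 0 < exp x + exp y := by positivity
  have e1 : exp y ≤ exp (x + M) := exp_le_exp.mpr (by linarith)
  have e2 : exp z ≤ exp (x + M) := exp_le_exp.mpr (by linarith)
  have e3 : exp x ≤ exp (x + M) := exp_le_exp.mpr (by linarith)
  have l1 : log (exp x + exp y + exp z) ≤ x + M + log 3 := by
    have : exp x + exp y + exp z ≤ exp (x + M) * 3 := by linarith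
    calc log (exp x + exp y + exp z) ≤ log (exp (x + M) * 3) := log_le_log hS this
      _ = x + M + log 3 := by rw [log_mul (exp_pos _).ne' (by norm_num), log_exp]
  have l2 : log (exp x + exp y) ≤ x + M + log 2 := by
    have : exp x + exp y ≤ exp (x + M) * 2 := by linarith
    calc log (exp x + exp y) ≤ log (exp (x + M) * 2) := log_le_log hS2 this
      _ = x + M + log 2 := by rw [log_mul (exp_pos _).ne' (by norm_num), log_exp]
  have e4 : inr x y z / (exp x + exp y)
      = exp ((x + y + z - log (exp x + exp y + exp z)) / 2 - log (exp x + exp y)) := by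
    rw [exp_sub, exp_log hS2]
    rfl
  rw [e4]
  unfold kap
  apply exp_le_exp.mpr
  linarith

theorem edge_ineq (a b p q W : ℝ) (ha : |a| ≤ W) (hb : |b| ≤ W) :
    (p ^ 2 + q ^ 2) / 4 * (a - b) ^ 2 - 2 * W ^ 2 * (p - q) ^ 2
      ≤ (p ^ 2 * a - q ^ 2 * b) * (a - b) := by
  have hs : ((a + b) / 2) ^ 2 ≤ W ^ 2 := by
    rw [abs_le] at ha hb
    apply sq_le_sq'
    · linarith
    · linarith
  have h1 : (p ^ 2 * a - q ^ 2 * b) * (a - b)
      = (p ^ 2 + q ^ 2) / 2 * (a - b) ^ 2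
        + (a + b) / 2 * (p - q) * ((p + q) * (a - b)) := by ring
  have h2 : 0 ≤ ((p + q) * (a - b) + 4 * ((a + b) / 2) * (p - q)) ^ 2 := sq_nonneg _
  have h3 : ((a + b) / 2) ^ 2 * (p - q) ^ 2 ≤ W ^ 2 * (p - q) ^ 2 :=
    mul_le_mul_of_nonneg_right hs (sq_nonneg _)
  have h4 : 0 ≤ (p - q) ^ 2 * (a - b) ^ 2 := by positivity
  rw [h1]
  nlinarith

theorem edge_ineq' (a b p q W c k : ℝ) (ha : |a| ≤ W) (hb : |b| ≤ W)
    (hk : k ≤ c) (hk0 : 0 < k) (hc : c ≤ 1 / 2) :
    -(c * ((p ^ 2 * a - q ^ 2 * b) * (a - b)))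
      ≤ -(k / 4 * ((p ^ 2 + q ^ 2) * (a - b) ^ 2)) + W ^ 2 * (p - q) ^ 2 := by
  have h := edge_ineq a b p q W ha hb
  have hc0 : 0 < c := lt_of_lt_of_le hk0 hk
  have h1 := mul_le_mul_of_nonneg_left h hc0.le
  have h2 : k * ((p ^ 2 + q ^ 2) / 4 * (a - b) ^ 2) ≤ c * ((p ^ 2 + q ^ 2) / 4 * (a - b) ^ 2) :=
    mul_le_mul_of_nonneg_right hk (by positivity)
  have h3 : c * (2 * W ^ 2 * (p - q) ^ 2) ≤ 1 / 2 * (2 * W ^ 2 * (p - q) ^ 2) :=
    mul_le_mul_of_nonneg_right hc (by positivity)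
  nlinarith

/-- The energy inequality on one face. -/
theorem face_ineq (x y z a b c p q r M W : ℝ)
    (h1 : |x - y| ≤ M) (h2 : |y - z| ≤ M) (h3 : |x - z| ≤ M)
    (h1' : |x + a - (y + b)| ≤ M) (h2' : |y + b - (z + c)| ≤ M) (h3' : |x + a - (z + c)| ≤ M)
    (ha : |a| ≤ W) (hb : |b| ≤ W) (hc : |c| ≤ W) :
    p ^ 2 * a * (ang (x + a) (y + b) (z + c) - ang x y z)
      + q ^ 2 * b * (ang (y + b) (z + c) (x + a) - ang y z x)
      + r ^ 2 * c * (ang (z + c) (x + a) (y + b) - ang z x y)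
    ≤ -(kap M / 4 * ((p ^ 2 + q ^ 2) * (a - b) ^ 2 + (q ^ 2 + r ^ 2) * (b - c) ^ 2
        + (p ^ 2 + r ^ 2) * (a - c) ^ 2))
      + W ^ 2 * ((p - q) ^ 2 + (q - r) ^ 2 + (p - r) ^ 2) := by
  set G : ℝ → ℝ := fun t =>
    p ^ 2 * a * ang (x + t * a) (y + t * b) (z + t * c)
      + q ^ 2 * b * ang (y + t * b) (z + t * c) (x + t * a)
      + r ^ 2 * c * ang (z + t * c) (x + t * a) (y + t * b) with hG
  set G' : ℝ → ℝ := fun t =>
    p ^ 2 * a * (inr (x + t * a) (y + t * b) (z + t * c) *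
        ((b - a) / (exp (x + t * a) + exp (y + t * b)) +
          (c - a) / (exp (x + t * a) + exp (z + t * c))))
      + q ^ 2 * b * (inr (y + t * b) (z + t * c) (x + t * a) *
        ((c - b) / (exp (y + t * b) + exp (z + t * c)) +
          (a - b) / (exp (y + t * b) + exp (x + t * a))))
      + r ^ 2 * c * (inr (z + t * c) (x + t * a) (y + t * b) *
        ((a - c) / (exp (z + t * c) + exp (x + t * a)) +
          (b - c) / (exp (z + t * c) + exp (y + t * b)))) with hG'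
  have hd : ∀ t, HasDerivAt G (G' t) t := fun t =>
    (((hasDerivAt_ang x y z a b c t).const_mul (p ^ 2 * a)).add
      ((hasDerivAt_ang y z x b c a t).const_mul (q ^ 2 * b))).add
      ((hasDerivAt_ang z x y c a b t).const_mul (r ^ 2 * c))
  obtain ⟨t, ht, hte⟩ := exists_hasDerivAt_eq_slope G G' zero_lt_one
    (fun t _ => (hd t).continuousAt.continuousWithinAt) (fun t _ => hd t)
  have hGd : p ^ 2 * a * (ang (x + a) (y + b) (z + c) - ang x y z)
      + q ^ 2 * b * (ang (y + b) (z + c) (x + a) - ang y z x)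
      + r ^ 2 * c * (ang (z + c) (x + a) (y + b) - ang z x y) = G' t := by
    rw [hte, hG]
    simp only [one_mul, zero_mul, add_zero, sub_zero, div_one]
    ring
  rw [hGd]
  have bd : ∀ u v e f : ℝ, |u - v| ≤ M → |u + e - (v + f)| ≤ M →
      |u + t * e - (v + t * f)| ≤ M := by
    intro u v e f h h'
    rw [abs_le] at h h' ⊢
    obtain ⟨t0, t1⟩ := ht
    have : u + t * e - (v + t * f) = (1 - t) * (u - v) + t * (u + e - (v + f)) := by ring
    rw [this]
    constructor <;> nlinarith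
  have b1 := bd x y a b h1 h1'
  have b2 := bd y z b c h2 h2'
  have b3 := bd x z a c h3 h3'
  have i2 : inr (y + t * b) (z + t * c) (x + t * a) = inr (x + t * a) (y + t * b) (z + t * c) :=
    inr_rot _ _ _
  have i3 : inr (z + t * c) (x + t * a) (y + t * b) = inr (x + t * a) (y + t * b) (z + t * c) := by
    rw [inr_rot (y + t * b), i2]
  have k1 := kap_le (x + t * a) (y + t * b) (z + t * c) M b1 b3
  have k2 := kap_le (y + t * b) (z + t * c) (x + t * a) M b2 (by rw [abs_sub_comm]; exact b1)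
  have k3 := kap_le (z + t * c) (x + t * a) (y + t * b) M (by rw [abs_sub_comm]; exact b3)
    (by rw [abs_sub_comm]; exact b2)
  have u1 := inr_le (x + t * a) (y + t * b) (z + t * c)
  have u2 := inr_le (y + t * b) (z + t * c) (x + t * a)
  have u3 := inr_le (z + t * c) (x + t * a) (y + t * b)
  rw [i2] at k2 u2
  rw [i3] at k3 u3
  rw [hG']
  simp only
  rw [i2, i3]
  set X := exp (x + t * a)
  set Y := exp (y + t * b)
  set Z := exp (z + t * c)
  set ρ := inr (x + t * a) (y + t * b) (z + t * c)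
  have hX : 0 < X := exp_pos _
  have hY : 0 < Y := exp_pos _
  have hZ : 0 < Z := exp_pos _
  have w1 : ρ / (X + Y) ≤ 1 / 2 := by rw [div_le_div_iff₀ (by positivity) (by norm_num)]; linarith
  have w2 : ρ / (Y + Z) ≤ 1 / 2 := by rw [div_le_div_iff₀ (by positivity) (by norm_num)]; linarith
  have w3 : ρ / (Z + X) ≤ 1 / 2 := by rw [div_le_div_iff₀ (by positivity) (by norm_num)]; linarith
  have f1 := edge_ineq' a b p q W _ _ ha hb k1 (kap_pos M) w1
  have f2 := edge_ineq' b c q r W _ _ hb hc k2 (kap_pos M) w2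
  have f3 := edge_ineq' c a r p W _ _ hc ha k3 (kap_pos M) w3
  have key : p ^ 2 * a * (ρ * ((b - a) / (X + Y) + (c - a) / (X + Z)))
      + q ^ 2 * b * (ρ * ((c - b) / (Y + Z) + (a - b) / (Y + X)))
      + r ^ 2 * c * (ρ * ((a - c) / (Z + X) + (b - c) / (Z + Y)))
      = -(ρ / (X + Y) * ((p ^ 2 * a - q ^ 2 * b) * (a - b)))
        + -(ρ / (Y + Z) * ((q ^ 2 * b - r ^ 2 * c) * (b - c)))
        + -(ρ / (Z + X) * ((r ^ 2 * c - p ^ 2 * a) * (c - a))) := by
    rw [add_comm X Z, add_comm Y X, add_comm Z Y]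
    field_simp
    ring
  rw [key]
  calc _ ≤ (-(kap M / 4 * ((p ^ 2 + q ^ 2) * (a - b) ^ 2)) + W ^ 2 * (p - q) ^ 2)
        + (-(kap M / 4 * ((q ^ 2 + r ^ 2) * (b - c) ^ 2)) + W ^ 2 * (q - r) ^ 2)
        + (-(kap M / 4 * ((r ^ 2 + p ^ 2) * (c - a) ^ 2)) + W ^ 2 * (r - p) ^ 2) :=
        add_le_add (add_le_add f1 f2) f3
    _ = _ := by ring

end Pool.Agent.H926Doyle
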