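import Mathlib

/-!
# A ring lemma for flowers with six petals
-/

open Real Finset

namespace Pool.Agent.H926Doyle

/-- The angle at a circle of radius `1` spanned by two tangent petals of radii `b`, `c`. -/
noncomputable def aa (b c : ℝ) : ℝ := 2 * arctan (sqrt (b * c / (1 + b + c)))

theorem aa_pos {b c : ℝ} (hb : 0 < b) (hc : 0 < c) : 0 < aa b c := by
  unfold aa
  have : 0 < arctan (sqrt (b * c / (1 + b + c))) := arctan_pos.mpr (sqrt_pos.mpr (by positivity))
  linarith

theorem aa_lt_pi (b c : ℝ) : aa b c < π := by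
  unfold aa
  have := arctan_lt_pi_div_two (sqrt (b * c / (1 + b + c)))
  linarith

theorem aa_comm (b c : ℝ) : aa b c = aa c b := by
  unfold aa
  rw [mul_comm b c, show 1 + b + c = 1 + c + b by ring]

theorem arctan_le_self' {x : ℝ} (hx : 0 ≤ x) : arctan x ≤ x := by
  rcases hx.eq_or_lt with h | h
  · rw [← h]; simp
  · have h1 : 0 < arctan x := arctan_pos.mpr h
    have := Real.lt_tan h1 (arctan_lt_pi_div_two x)
    rw [tan_arctan] at this
    exact this.le

theorem aa_le {b c : ℝ} (hb : 0 < b) (hc : 0 < c) : aa b c ≤ 2 * sqrt b := by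
  unfold aa
  have h1 := arctan_le_self' (sqrt_nonneg (b * c / (1 + b + c)))
  have h2 : sqrt (b * c / (1 + b + c)) ≤ sqrt b := by
    apply sqrt_le_sqrt
    rw [div_le_iff₀ (by positivity)]
    nlinarith [mul_pos hb hc]
  linarith

theorem aa_mono {b c b' c' : ℝ} (hb : 0 < b) (hc : 0 < c) (h1 : b ≤ b') (h2 : c ≤ c') :
    aa b c ≤ aa b' c' := by
  unfold aa
  have hb' : 0 < b' := hb.trans_le h1
  have hc' : 0 < c' := hc.trans_le h2
  have h3 : sqrt (b * c / (1 + b + c)) ≤ sqrt (b' * c' / (1 + b' + c')) := by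
    apply sqrt_le_sqrt
    rw [div_le_div_iff₀ (by positivity) (by positivity)]
    have e1 : b * c ≤ b' * c' := mul_le_mul h1 h2 hc.le hb'.le
    have e2 : b * c * b' ≤ b' * c' * b := by
      have : b * b' * c ≤ b * b' * c' := mul_le_mul_of_nonneg_left h2 (by positivity)
      linarith
    have e3 : b * c * c' ≤ b' * c' * c := by
      have : c * c' * b ≤ c * c' * b' := mul_le_mul_of_nonneg_left h1 (by positivity)
      linarith
    linarith
  have := arctan_strictMono.monotone h3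
  linarith

/-- Partial angle sums. -/
noncomputable def ss (b : ℕ → ℝ) (k : ℕ) : ℝ := ∑ j ∈ range k, aa (b j) (b (j + 1))

theorem ss_succ (b : ℕ → ℝ) (k : ℕ) : ss b (k + 1) = ss b k + aa (b k) (b (k + 1)) := by
  unfold ss; rw [sum_range_succ]

/-- A flower of six petals whose petal `0` does not overlap the others. -/
structure Fl (b : ℕ → ℝ) : Prop where
  pos : ∀ k, 0 < b k
  disj : ∀ k, 2 ≤ k → k ≤ 5 → aa (b 0) (b k) ≤ ss b k
  tot : ss b 6 = 2 * π

theorem two_sqrt_lt {x τ : ℝ} (hτ : 0 < τ) (h : x < (τ / 2) ^ 2) : 2 * sqrt x < τ := by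
  have : sqrt x < τ / 2 := by
    rw [sqrt_lt' (by positivity)]
    exact h
  linarith

theorem chain (δ : ℝ) (hδ : 0 < δ) (k : ℕ) (hk : k ≤ 5) :
    ∀ τ > 0, ∃ ε > 0, ∀ b : ℕ → ℝ, Fl b → δ ≤ b 0 → b 1 < ε → ss b (k + 1) < τ := by
  induction k with
  | zero =>
    intro τ hτ
    refine ⟨(τ / 2) ^ 2, by positivity, fun b hb _ h1 => ?_⟩
    rw [ss_succ]
    have : ss b 0 = 0 := by simp [ss]
    rw [this, zero_add, aa_comm]
    exact lt_of_le_of_lt (aa_le (hb.pos _) (hb.pos _)) (two_sqrt_lt hτ h1)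
  | succ k ih =>
    intro τ hτ
    set σ : ℝ := ((τ / 2) / 2) ^ 2 with hσ
    have hσ0 : 0 < σ := by positivity
    obtain ⟨ε, hε, h⟩ := ih (by omega) (min (τ / 2) (aa δ σ)) (lt_min (by positivity) (aa_pos hδ hσ0))
    refine ⟨min ε σ, lt_min hε hσ0, fun b hb h0 h1 => ?_⟩
    have h2 := h b hb h0 (lt_of_lt_of_le h1 (min_le_left _ _))
    rw [ss_succ]
    have h3 : b (k + 1) < σ := by
      rcases Nat.eq_zero_or_pos k with rfl | hk0
      · exact lt_of_lt_of_le h1 (min_le_right _ _)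
      · by_contra hc
        push Not at hc
        have h4 := hb.disj (k + 1) (by omega) (by omega)
        have h5 := aa_mono hδ hσ0 h0 hc
        have h6 := lt_of_lt_of_le h2 (min_le_right _ _)
        linarith
    have h4 : aa (b (k + 1)) (b (k + 1 + 1)) < τ / 2 :=
      lt_of_le_of_lt (aa_le (hb.pos _) (hb.pos _)) (two_sqrt_lt (by positivity) h3)
    have h5 := lt_of_lt_of_le h2 (min_le_left _ _)
    linarith

theorem ring_step (δ : ℝ) (hδ : 0 < δ) :
    ∃ ε > 0, ∀ b : ℕ → ℝ, Fl b → δ ≤ b 0 → ε ≤ b 1 := by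
  obtain ⟨ε, hε, h⟩ := chain δ hδ 5 le_rfl 1 one_pos
  refine ⟨ε, hε, fun b hb h0 => ?_⟩
  by_contra hc
  push Not at hc
  have := h b hb h0 hc
  rw [hb.tot] at this
  have := pi_gt_three
  linarith

/-- Reduction of indices modulo six. -/
def cy (j : ℕ) : Fin 6 := Fin.ofNat 6 j

theorem cy_zero : cy 0 = 0 := rfl

theorem cy_succ (j : ℕ) : cy (j + 1) = cy j + 1 := by
  apply Fin.ext
  simp [cy, Fin.val_add, Nat.add_mod]

theorem cy_val (i : Fin 6) : cy i.val = i := by
  apply Fin.ext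
  simp [cy]

/-- **Ring lemma.** A universal positive lower bound for the petals of a flower with six petals. -/
theorem ring_lemma : ∃ ε > 0, ∀ b : Fin 6 → ℝ,
    (∀ i : Fin 6, Fl (fun j : ℕ => b (i + cy j))) → ∀ i, ε ≤ b i := by
  -- a decreasing sequence of bounds
  have hstep : ∀ n : ℕ, ∃ δ > 0, δ ≤ 1 / 4 ∧ ∀ b : Fin 6 → ℝ,
      (∀ i : Fin 6, Fl (fun j : ℕ => b (i + cy j))) → ∀ i, 1 / 4 ≤ b i →
        ∀ j ≤ n, δ ≤ b (i + cy j) := by
    intro n
    induction n with
    | zero =>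
      refine ⟨1 / 4, by norm_num, le_rfl, fun b _ i hi j hj => ?_⟩
      have : j = 0 := by omega
      rw [this, cy_zero, add_zero]
      exact hi
    | succ n ih =>
      obtain ⟨δ, hδ, hδ4, h⟩ := ih
      obtain ⟨ε, hε, h'⟩ := ring_step δ hδ
      refine ⟨min δ ε, lt_min hδ hε, (min_le_left _ _).trans hδ4, fun b hb i hi j hj => ?_⟩
      rcases Nat.lt_or_ge j (n + 1) with hj' | hj'
      · exact (min_le_left _ _).trans (h b hb i hi j (by omega))
      · have hjn : j = n + 1 := by omega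
        have h1 := h b hb i hi n le_rfl
        have h2 := h' _ (hb (i + cy n)) (by rw [cy_zero, add_zero]; exact h1)
        rw [hjn]
        refine (min_le_right _ _).trans ?_
        have e : i + cy n + cy 1 = i + cy (n + 1) := by
          rw [cy_succ n, show cy 1 = 1 from rfl, add_assoc]
        rw [← e]
        exact h2
  obtain ⟨δ, hδ, _, h⟩ := hstep 5
  refine ⟨δ, hδ, fun b hb i => ?_⟩
  -- some petal is at least `1 / 4`
  obtain ⟨i0, hi0⟩ : ∃ i, 1 / 4 ≤ b i := by
    by_contra hc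
    push Not at hc
    have ht := (hb 0).tot
    have hlt : ∀ j : ℕ, aa (b (0 + cy j)) (b (0 + cy (j + 1))) < 1 := by
      intro j
      have p1 := (hb 0).pos j
      have p2 := (hb 0).pos (j + 1)
      refine lt_of_le_of_lt (aa_le p1 p2) (two_sqrt_lt one_pos ?_)
      have := hc (0 + cy j)
      norm_num
      norm_num at this
      exact this
    have hs : ss (fun j : ℕ => b (0 + cy j)) 6 ≤ ∑ _j ∈ range 6, (1 : ℝ) := by
      unfold ss
      exact sum_le_sum (fun j _ => (hlt j).le)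
    rw [ht] at hs
    simp at hs
    have := pi_gt_three
    linarith
  have e : i = i0 + cy (i - i0).val := by
    rw [cy_val]; abel
  rw [e]
  exact h b hb i0 hi0 _ (by have := (i - i0).isLt; omega)

end Pool.Agent.H926Doyle
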