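import Pool.Agent.H926_Doyle.Liouville
import Pool.Agent.H926_Doyle.Ring

open Real Finset

namespace Pool.Agent.H926Doyle

theorem cos_aa (b c : ℝ) (hb : 0 < b) (hc : 0 < c) :
    cos (aa b c) = (1 + b + c - b * c) / ((1 + b) * (1 + c)) := by
  unfold aa
  rw [cos_two_mul, cos_sq_arctan, sq_sqrt (by positivity)]
  field_simp
  ring

theorem arccos_eq_aa (r s t : ℝ) (hr : 0 < r) (hs : 0 < s) (ht : 0 < t) :
    arccos (((r + s) ^ 2 + (r + t) ^ 2 - (s + t) ^ 2) / (2 * (r + s) * (r + t)))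
      = aa (s / r) (t / r) := by
  have h1 : 0 < s / r := by positivity
  have h2 : 0 < t / r := by positivity
  have h3 : ((r + s) ^ 2 + (r + t) ^ 2 - (s + t) ^ 2) / (2 * (r + s) * (r + t))
      = cos (aa (s / r) (t / r)) := by
    rw [cos_aa _ _ h1 h2]
    field_simp
    ring
  rw [h3, arccos_cos (aa_pos h1 h2).le (aa_lt_pi _ _).le]

theorem ang_eq_aa (r s t : ℝ) (hr : 0 < r) (hs : 0 < s) (ht : 0 < t) :
    ang (log r) (log s) (log t) = aa (s / r) (t / r) := by
  rw [ang_eq, exp_log hr]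
  unfold aa
  congr 2
  have h := inr_sq (log r) (log s) (log t)
  rw [exp_log hr, exp_log hs, exp_log ht] at h
  have hp := inr_pos (log r) (log s) (log t)
  symm
  rw [sqrt_eq_iff_mul_self_eq (by positivity) (by positivity)]
  field_simp
  linarith

/-- The next petal is obtained by a rotation by the angle of the face. -/
theorem rot_step (p q : ℂ) (P Q D : ℝ) (hP : 0 < P) (hQ : 0 < Q) (hp : ‖p‖ = P) (hq : ‖q‖ = Q)
    (hD : ‖p - q‖ = D) (him : 0 < (q / p).im) :
    q / p = ((Q / P : ℝ) : ℂ) *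
      Complex.exp ((arccos ((P ^ 2 + Q ^ 2 - D ^ 2) / (2 * P * Q)) : ℝ) * Complex.I) := by
  have hp0 : p ≠ 0 := by
    intro h; rw [h, norm_zero] at hp; linarith
  have hq0 : q ≠ 0 := by
    intro h; rw [h, norm_zero] at hq; linarith
  have hz0 : q / p ≠ 0 := div_ne_zero hq0 hp0
  have hn : ‖q / p‖ = Q / P := by rw [norm_div, hp, hq]
  have harg : Complex.arg (q / p) = arccos ((q / p).re / ‖q / p‖) :=
    Complex.arg_of_im_nonneg_of_ne_zero him.le hz0
  have hlaw : (q / p).re / ‖q / p‖ = (P ^ 2 + Q ^ 2 - D ^ 2) / (2 * P * Q) := by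
    have h1 : ‖1 - q / p‖ ^ 2 = (D / P) ^ 2 := by
      have : 1 - q / p = (p - q) / p := by field_simp
      rw [this, norm_div, hp, hD]
    have h2 : ‖1 - q / p‖ ^ 2 = 1 - 2 * (q / p).re + ‖q / p‖ ^ 2 := by
      rw [Complex.sq_norm, Complex.sq_norm, Complex.normSq_apply, Complex.normSq_apply]
      simp only [Complex.sub_re, Complex.sub_im, Complex.one_re, Complex.one_im]
      ring
    rw [h1, hn] at h2
    have h3 : (q / p).re = (1 + (Q / P) ^ 2 - (D / P) ^ 2) / 2 := by linarith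
    rw [hn, h3]
    field_simp
  have hpol := Complex.norm_mul_exp_arg_mul_I (q / p)
  rw [harg, hlaw, hn] at hpol
  exact hpol.symm

theorem rot_chain (p : ℕ → ℂ) (α : ℕ → ℝ) (h0 : ∀ j, p j ≠ 0)
    (h : ∀ j, p (j + 1) / p j = ((‖p (j + 1)‖ / ‖p j‖ : ℝ) : ℂ) *
      Complex.exp ((α j : ℝ) * Complex.I)) (k : ℕ) :
    p k / p 0 = ((‖p k‖ / ‖p 0‖ : ℝ) : ℂ) *
      Complex.exp (((∑ j ∈ range k, α j : ℝ) : ℂ) * Complex.I) := by
  induction k with
  | zero =>
    have : ‖p 0‖ ≠ 0 := norm_ne_zero_iff.mpr (h0 0)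
    simp [div_self (h0 0), div_self this]
  | succ k ih =>
    have e : p (k + 1) / p 0 = (p (k + 1) / p k) * (p k / p 0) := by
      have := h0 k
      field_simp
    rw [e, h k, ih, sum_range_succ]
    have hk : ‖p k‖ ≠ 0 := norm_ne_zero_iff.mpr (h0 k)
    have hk' : ((‖p k‖ : ℝ) : ℂ) ≠ 0 := by exact_mod_cast hk
    have h00' : ((‖p 0‖ : ℝ) : ℂ) ≠ 0 := by exact_mod_cast norm_ne_zero_iff.mpr (h0 0)
    push_cast
    rw [add_mul, Complex.exp_add]
    field_simp

theorem dist_chain (p q : ℂ) (P Q S D : ℝ) (hP : 0 < P) (hQ : 0 < Q) (hp : ‖p‖ = P)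
    (hq : ‖q‖ = Q) (hS : 0 ≤ S)
    (h : q / p = ((Q / P : ℝ) : ℂ) * Complex.exp ((S : ℂ) * Complex.I)) (hD0 : 0 ≤ D)
    (hD : D ≤ ‖p - q‖) (hlt : D ≤ P + Q) (hgt : |P - Q| ≤ D) :
    arccos ((P ^ 2 + Q ^ 2 - D ^ 2) / (2 * P * Q)) ≤ S := by
  have hp0 : p ≠ 0 := by
    intro h; rw [h, norm_zero] at hp; linarith
  have hn : ‖q / p‖ = Q / P := by rw [norm_div, hp, hq]
  have hre : (q / p).re = Q / P * cos S := by
    rw [h, Complex.re_ofReal_mul, Complex.exp_ofReal_mul_I_re]
  have h1 : ‖p - q‖ ^ 2 = P ^ 2 * (1 - 2 * (q / p).re + (Q / P) ^ 2) := by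
    have : p - q = p * (1 - q / p) := by field_simp
    rw [this, norm_mul, mul_pow, hp, ← hn]
    congr 1
    rw [Complex.sq_norm, Complex.sq_norm, Complex.normSq_apply, Complex.normSq_apply]
    simp only [Complex.sub_re, Complex.sub_im, Complex.one_re, Complex.one_im]
    ring
  rw [hre] at h1
  have h2 : ‖p - q‖ ^ 2 = P ^ 2 + Q ^ 2 - 2 * P * Q * cos S := by
    rw [h1]; field_simp; ring
  have h3 : D ^ 2 ≤ ‖p - q‖ ^ 2 := pow_le_pow_left₀ hD0 hD 2
  have h4 : cos S ≤ (P ^ 2 + Q ^ 2 - D ^ 2) / (2 * P * Q) := by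
    rw [le_div_iff₀ (by positivity)]
    linarith
  by_contra hc
  push Not at hc
  have h5 := cos_lt_cos_of_nonneg_of_le_pi hS (arccos_le_pi _) hc
  rw [cos_arccos] at h5
  · linarith
  · rw [le_div_iff₀ (by positivity)]
    nlinarith
  · rw [div_le_one (by positivity)]
    have : (P - Q) ^ 2 ≤ D ^ 2 := by
      rw [← sq_abs]; exact pow_le_pow_left₀ (abs_nonneg _) hgt 2
    nlinarith

/-- Functions on `ℤ × ℤ` with constant increments are affine. -/
theorem affine_of_steps (f : ℤ × ℤ → ℝ) (α β : ℝ) (h0 : ∀ v, f (v + nb 0) = f v + α)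
    (h1 : ∀ v, f (v + nb 1) = f v + β) (n m : ℤ) : f (n, m) = f (0, 0) + n * α + m * β := by
  have hx : ∀ n m : ℤ, f (n + 1, m) = f (n, m) + α := by
    intro n m
    have := h0 (n, m)
    simpa [nb] using this
  have hy : ∀ n m : ℤ, f (n, m + 1) = f (n, m) + β := by
    intro n m
    have := h1 (n, m)
    simpa [nb] using this
  have e1 : ∀ n : ℤ, f (n, 0) = f (0, 0) + n * α := by
    intro n
    induction n using Int.induction_on with
    | zero => simp
    | succ i ih =>
      rw [hx, ih]; push_cast; ring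
    | pred i ih =>
      have := hx (-(i : ℤ) - 1) 0
      rw [sub_add_cancel, ih] at this
      have e : f (-(i : ℤ) - 1, 0) = f (0, 0) + ((-(i : ℤ) : ℤ) : ℝ) * α - α := by linarith
      rw [e]; push_cast; ring
  have e2 : ∀ n m : ℤ, f (n, m) = f (n, 0) + m * β := by
    intro n m
    induction m using Int.induction_on with
    | zero => simp
    | succ i ih =>
      rw [hy, ih]; push_cast; ring
    | pred i ih =>
      have := hy n (-(i : ℤ) - 1)
      rw [sub_add_cancel, ih] at this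
      have e : f (n, -(i : ℤ) - 1) = f (n, 0) + ((-(i : ℤ) : ℤ) : ℝ) * β - β := by linarith
      rw [e]; push_cast; ring
  rw [e2, e1]

/-- Logarithmic radii with bounded differences along the edges are affine. -/
theorem affine_of_bounded (u : ℤ × ℤ → ℝ) (M : ℝ) (hM : ∀ v k, |u v - u (v + nb k)| ≤ M)
    (hθ : ∀ v, angSum u v = 2 * π) :
    ∃ α β : ℝ, ∀ n m : ℤ, u (n, m) = u (0, 0) + n * α + m * β := by
  have key : ∀ i : Fin 6, ∃ γ : ℝ, ∀ v, u (v + nb i) = u v + γ := by
    intro i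
    set w : ℤ × ℤ → ℝ := fun v => u (v + nb i) - u v with hw
    have e : ∀ v, u v + w v = u (v + nb i) := by intro v; rw [hw]; ring
    have hM' : ∀ v k, |u v + w v - (u (v + nb k) + w (v + nb k))| ≤ M := by
      intro v k
      rw [e, e, show v + nb k + nb i = v + nb i + nb k by abel]
      exact hM _ _
    have hW : ∀ v, |w v| ≤ M := by
      intro v
      rw [hw]
      simp only
      rw [abs_sub_comm]
      exact hM _ _
    have hs : ∀ v, angSum (u + w) v = angSum u v := by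
      intro v
      rw [hθ v, ← hθ (v + nb i)]
      unfold angSum
      simp only [Pi.add_apply, e]
      refine Finset.sum_congr rfl fun k _ => ?_
      rw [show v + nb k + nb i = v + nb i + nb k by abel,
        show v + nb (k + 1) + nb i = v + nb i + nb (k + 1) by abel]
    have hl := liouville u w hM hM' hW hs
    refine ⟨w (0, 0), fun v => ?_⟩
    have := affine_of_steps w 0 0 (fun v => by rw [(hl v).1, add_zero])
      (fun v => by rw [(hl v).2, add_zero]) v.1 v.2
    simp only [mul_zero, add_zero, Prod.mk.eta] at this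
    rw [← this]
    exact (e v).symm
  obtain ⟨α, hα⟩ := key 0
  obtain ⟨β, hβ⟩ := key 1
  exact ⟨α, β, fun n m => affine_of_steps u α β hα hβ n m⟩

end Pool.Agent.H926Doyle
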