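import Pool.Agent.H926_Doyle.Face
import Pool.Agent.H926_Doyle.Cutoff

open Finset

namespace Pool.Agent.H926Doyle

/-- The six neighbours in cyclic order. -/
def nb : Fin 6 → ℤ × ℤ := ![(1, 0), (0, 1), (-1, 1), (-1, 0), (0, -1), (1, -1)]

/-- Angle sums in logarithmic radii. -/
noncomputable def angSum (u : ℤ × ℤ → ℝ) (v : ℤ × ℤ) : ℝ :=
  ∑ k : Fin 6, ang (u v) (u (v + nb k)) (u (v + nb (k + 1)))

theorem nb_nrm (v : ℤ × ℤ) (k : Fin 6) :
    nrm (v + nb k) ≤ nrm v + 1 ∧ nrm v ≤ nrm (v + nb k) + 1 := by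
  unfold nrm
  fin_cases k <;> simp [nb] <;> omega

theorem nb02 (v : ℤ × ℤ) : v + nb 0 + nb 2 = v + nb 1 := by
  simp [nb, add_assoc]
theorem nb03 (v : ℤ × ℤ) : v + nb 0 + nb 3 = v := by
  simp [nb, add_assoc]
theorem nb14 (v : ℤ × ℤ) : v + nb 1 + nb 4 = v := by
  simp [nb, add_assoc]
theorem nb15 (v : ℤ × ℤ) : v + nb 1 + nb 5 = v + nb 0 := by
  simp [nb, add_assoc]
theorem nb13 (v : ℤ × ℤ) : v + nb 1 + nb 3 = v + nb 2 := by
  simp [nb, add_assoc]
theorem nb25 (v : ℤ × ℤ) : v + nb 2 + nb 5 = v := by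
  simp [nb, add_assoc]
theorem nb20 (v : ℤ × ℤ) : v + nb 2 + nb 0 = v + nb 1 := by
  simp [nb, add_assoc]

section

variable (u w : ℤ × ℤ → ℝ) (K : ℕ)

/-- Change of the angle. -/
noncomputable def dl (x y z : ℤ × ℤ) : ℝ :=
  ang (u x + w x) (u y + w y) (u z + w z) - ang (u x) (u y) (u z)

/-- Weighted changes of the angles at `v`. -/
noncomputable def ff (k : Fin 6) (v : ℤ × ℤ) : ℝ :=
  cut K v ^ 2 * w v * dl u w v (v + nb k) (v + nb (k + 1))

theorem ff_zero {K : ℕ} (hK : 1 ≤ K) (k : Fin 6) {v : ℤ × ℤ} (hv : v ∉ box K) :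
    ff u w K k v = 0 := by
  rw [mem_box] at hv
  unfold ff
  rw [cut_zero hK (by omega)]
  ring

theorem ff_summable {K : ℕ} (hK : 1 ≤ K) (k : Fin 6) : Summable (ff u w K k) :=
  summable_of_ne_finset_zero (s := box K) (fun _ hv => ff_zero u w hK k hv)

/-- The contribution of the two faces based at `v`. -/
noncomputable def tt (v : ℤ × ℤ) : ℝ :=
  (ff u w K 0 v + ff u w K 2 (v + nb 0) + ff u w K 4 (v + nb 1)) +
    (ff u w K 1 v + ff u w K 3 (v + nb 1) + ff u w K 5 (v + nb 2))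

theorem tt_hasSum {K : ℕ} (hK : 1 ≤ K)
    (hθ : ∀ v, angSum (u + w) v = angSum u v) : HasSum (tt u w K) 0 := by
  have h0 : ∀ v, ∑ k : Fin 6, ff u w K k v = 0 := by
    intro v
    unfold ff
    rw [← mul_sum]
    have : ∑ k : Fin 6, dl u w v (v + nb k) (v + nb (k + 1)) = 0 := by
      unfold dl
      rw [sum_sub_distrib]
      have := hθ v
      unfold angSum at this
      simp only [Pi.add_apply] at this
      rw [this, sub_self]
    rw [this, mul_zero]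
  have hs : ∀ k, HasSum (ff u w K k) (∑' v, ff u w K k v) := fun k =>
    (ff_summable u w hK k).hasSum
  have hsh : ∀ k e, HasSum (fun v => ff u w K k (v + e)) (∑' v, ff u w K k v) := fun k e =>
    (Equiv.hasSum_iff (Equiv.addRight e)).mpr (hs k)
  have h1 : HasSum (tt u w K)
      (((∑' v, ff u w K 0 v) + (∑' v, ff u w K 2 v) + (∑' v, ff u w K 4 v)) +
        ((∑' v, ff u w K 1 v) + (∑' v, ff u w K 3 v) + (∑' v, ff u w K 5 v))) :=
    (((hs 0).add (hsh 2 _)).add (hsh 4 _)).add (((hs 1).add (hsh 3 _)).add (hsh 5 _))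
  have h2 : HasSum (fun v => ∑ k : Fin 6, ff u w K k v) (∑ k : Fin 6, ∑' v, ff u w K k v) :=
    hasSum_sum (fun k _ => hs k)
  simp only [h0] at h2
  have h3 : (∑ k : Fin 6, ∑' v, ff u w K k v) = 0 := h2.unique hasSum_zero
  rw [Fin.sum_univ_six] at h3
  convert h1 using 1
  linarith

/-- Dirichlet terms. -/
noncomputable def qq (v : ℤ × ℤ) : ℝ :=
  ((cut K v ^ 2 + cut K (v + nb 0) ^ 2) * (w v - w (v + nb 0)) ^ 2
    + (cut K (v + nb 0) ^ 2 + cut K (v + nb 1) ^ 2) * (w (v + nb 0) - w (v + nb 1)) ^ 2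
    + (cut K v ^ 2 + cut K (v + nb 1) ^ 2) * (w v - w (v + nb 1)) ^ 2) +
  ((cut K v ^ 2 + cut K (v + nb 1) ^ 2) * (w v - w (v + nb 1)) ^ 2
    + (cut K (v + nb 1) ^ 2 + cut K (v + nb 2) ^ 2) * (w (v + nb 1) - w (v + nb 2)) ^ 2
    + (cut K v ^ 2 + cut K (v + nb 2) ^ 2) * (w v - w (v + nb 2)) ^ 2)

/-- Gradient terms of the cutoff function. -/
noncomputable def pp (v : ℤ × ℤ) : ℝ :=
  ((cut K v - cut K (v + nb 0)) ^ 2 + (cut K (v + nb 0) - cut K (v + nb 1)) ^ 2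
    + (cut K v - cut K (v + nb 1)) ^ 2) +
  ((cut K v - cut K (v + nb 1)) ^ 2 + (cut K (v + nb 1) - cut K (v + nb 2)) ^ 2
    + (cut K v - cut K (v + nb 2)) ^ 2)

theorem tt_le {M W : ℝ} (hM : ∀ v k, |u v - u (v + nb k)| ≤ M)
    (hM' : ∀ v k, |u v + w v - (u (v + nb k) + w (v + nb k))| ≤ M)
    (hW : ∀ v, |w v| ≤ W) (v : ℤ × ℤ) :
    tt u w K v ≤ -(kap M / 4 * qq w K v) + W ^ 2 * pp K v := by
  have f1 := face_ineq (u v) (u (v + nb 0)) (u (v + nb 1)) (w v) (w (v + nb 0)) (w (v + nb 1))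
    (cut K v) (cut K (v + nb 0)) (cut K (v + nb 1)) M W (hM v 0)
    (by have := hM (v + nb 0) 2; rwa [nb02] at this) (hM v 1) (hM' v 0)
    (by have := hM' (v + nb 0) 2; rwa [nb02] at this) (hM' v 1) (hW _) (hW _) (hW _)
  have f2 := face_ineq (u v) (u (v + nb 1)) (u (v + nb 2)) (w v) (w (v + nb 1)) (w (v + nb 2))
    (cut K v) (cut K (v + nb 1)) (cut K (v + nb 2)) M W (hM v 1)
    (by have := hM (v + nb 1) 3; rwa [nb13] at this) (hM v 2) (hM' v 1)
    (by have := hM' (v + nb 1) 3; rwa [nb13] at this) (hM' v 2) (hW _) (hW _) (hW _)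
  have e : tt u w K v =
      (cut K v ^ 2 * w v * dl u w v (v + nb 0) (v + nb 1)
        + cut K (v + nb 0) ^ 2 * w (v + nb 0) * dl u w (v + nb 0) (v + nb 1) v
        + cut K (v + nb 1) ^ 2 * w (v + nb 1) * dl u w (v + nb 1) v (v + nb 0)) +
      (cut K v ^ 2 * w v * dl u w v (v + nb 1) (v + nb 2)
        + cut K (v + nb 1) ^ 2 * w (v + nb 1) * dl u w (v + nb 1) (v + nb 2) v
        + cut K (v + nb 2) ^ 2 * w (v + nb 2) * dl u w (v + nb 2) v (v + nb 1)) := by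
    unfold tt ff
    have a0 : (0 : Fin 6) + 1 = 1 := rfl
    have a1 : (1 : Fin 6) + 1 = 2 := rfl
    have a2 : (2 : Fin 6) + 1 = 3 := rfl
    have a3 : (3 : Fin 6) + 1 = 4 := rfl
    have a4 : (4 : Fin 6) + 1 = 5 := rfl
    have a5 : (5 : Fin 6) + 1 = 0 := rfl
    rw [a0, a1, a2, a3, a4, a5, nb02, nb03, nb14, nb15, nb13, nb25, nb20]
  rw [e]
  unfold dl
  unfold qq pp
  calc _ ≤ _ := add_le_add f1 f2
    _ = _ := by ring

theorem qq_nonneg (v : ℤ × ℤ) : 0 ≤ qq w K v := by unfold qq; positivity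

theorem pp_nonneg (v : ℤ × ℤ) : 0 ≤ pp K v := by unfold pp; positivity

theorem cut_nb {K : ℕ} (hK : 1 ≤ K) {v : ℤ × ℤ} (hv : v ∉ box K) (k : Fin 6) :
    cut K (v + nb k) = 0 := by
  rw [mem_box] at hv
  have := nb_nrm v k
  exact cut_zero hK (by omega)

theorem cut_out {K : ℕ} (hK : 1 ≤ K) {v : ℤ × ℤ} (hv : v ∉ box K) :
    cut K v = 0 := by
  rw [mem_box] at hv
  exact cut_zero hK (by omega)

theorem qq_zero {K : ℕ} (hK : 1 ≤ K) {v : ℤ × ℤ} (hv : v ∉ box K) : qq w K v = 0 := by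
  unfold qq
  rw [cut_out hK hv, cut_nb hK hv, cut_nb hK hv, cut_nb hK hv]
  ring

theorem pp_zero {K : ℕ} (hK : 1 ≤ K) {v : ℤ × ℤ} (hv : v ∉ box K) : pp K v = 0 := by
  unfold pp
  rw [cut_out hK hv, cut_nb hK hv, cut_nb hK hv, cut_nb hK hv]
  ring

theorem pp_le {K : ℕ} (hK : 1 ≤ K) (v : ℤ × ℤ) :
    pp K v ≤ 24 / (((nrm v : ℝ) + 1) ^ 2 * hs K ^ 2) := by
  have n0 := nb_nrm v 0
  have n1 := nb_nrm v 1
  have n2 := nb_nrm v 2
  have n02 := nb_nrm (v + nb 0) 2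
  rw [nb02] at n02
  have n13 := nb_nrm (v + nb 1) 3
  rw [nb13] at n13
  have c1 := cut_diff (v := v) hK n0.2 n0.1 (by omega) n0.2
  have c2 := cut_diff (v := v) hK n02.2 n02.1 n0.2 n1.2
  have c3 := cut_diff (v := v) hK n1.2 n1.1 (by omega) n1.2
  have c4 := cut_diff (v := v) hK n13.2 n13.1 n1.2 n2.2
  have c5 := cut_diff (v := v) hK n2.2 n2.1 (by omega) n2.2
  unfold pp
  have e : 24 / (((nrm v : ℝ) + 1) ^ 2 * hs K ^ 2) = 6 * (4 / (((nrm v : ℝ) + 1) ^ 2 * hs K ^ 2)) := by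
    ring
  rw [e]
  linarith

theorem pp_tsum {K : ℕ} (hK : 1 ≤ K) : ∑' v, pp K v ≤ 384 / hs K := by
  have hp := hs_pos hK
  have hp0 : 0 < hs K := by linarith
  rw [tsum_eq_sum (s := box K) (fun v hv => pp_zero hK hv)]
  calc ∑ v ∈ box K, pp K v ≤ ∑ v ∈ box K, 24 / hs K ^ 2 * (1 / ((nrm v : ℝ) + 1) ^ 2) := by
        apply sum_le_sum
        intro v _
        refine (pp_le hK v).trans (le_of_eq ?_)
        field_simp
    _ = 24 / hs K ^ 2 * ∑ v ∈ box K, (1 / ((nrm v : ℝ) + 1) ^ 2) := by rw [mul_sum]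
    _ ≤ 24 / hs K ^ 2 * (8 * hs (K + 1)) := by
        apply mul_le_mul_of_nonneg_left (sum_box K) (by positivity)
    _ ≤ 24 / hs K ^ 2 * (8 * (2 * hs K)) := by
        apply mul_le_mul_of_nonneg_left _ (by positivity)
        rw [hs_succ]
        have : 1 / ((K : ℝ) + 1) ≤ 1 := by
          rw [div_le_one (by positivity)]
          have : (0 : ℝ) ≤ K := Nat.cast_nonneg _
          linarith
        linarith
    _ = 384 / hs K := by field_simp; norm_num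

theorem qq_le_tsum {K : ℕ} (hK : 1 ≤ K) (v : ℤ × ℤ) : qq w K v ≤ ∑' v, qq w K v := by
  have hs : Summable (qq w K) :=
    summable_of_ne_finset_zero (s := box K) (fun _ hv => qq_zero w hK hv)
  exact hs.le_tsum v (fun j _ => qq_nonneg w K j)

theorem energy {M W : ℝ} (hM : ∀ v k, |u v - u (v + nb k)| ≤ M)
    (hM' : ∀ v k, |u v + w v - (u (v + nb k) + w (v + nb k))| ≤ M)
    (hW : ∀ v, |w v| ≤ W) (hθ : ∀ v, angSum (u + w) v = angSum u v)
    {K : ℕ} (hK : 1 ≤ K) (v : ℤ × ℤ) :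
    kap M / 4 * qq w K v ≤ W ^ 2 * (384 / hs K) := by
  have hq : Summable (qq w K) :=
    summable_of_ne_finset_zero (s := box K) (fun _ hv => qq_zero w hK hv)
  have hp : Summable (pp K) :=
    summable_of_ne_finset_zero (s := box K) (fun _ hv => pp_zero hK hv)
  have h1 : HasSum (fun v => -(kap M / 4 * qq w K v) + W ^ 2 * pp K v)
      (-(kap M / 4 * ∑' v, qq w K v) + W ^ 2 * ∑' v, pp K v) :=
    ((hq.hasSum.mul_left (kap M / 4)).neg).add (hp.hasSum.mul_left (W ^ 2))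
  have h2 : (0 : ℝ) ≤ -(kap M / 4 * ∑' v, qq w K v) + W ^ 2 * ∑' v, pp K v :=
    hasSum_le (fun v => tt_le u w K hM hM' hW v) (tt_hasSum u w hK hθ) h1
  have h3 := qq_le_tsum w hK v
  have h4 := pp_tsum hK
  have h5 := mul_le_mul_of_nonneg_left h3 (by have := kap_pos M; positivity : 0 ≤ kap M / 4)
  have h6 := mul_le_mul_of_nonneg_left h4 (sq_nonneg W)
  linarith

theorem liouville {M W : ℝ} (hM : ∀ v k, |u v - u (v + nb k)| ≤ M)
    (hM' : ∀ v k, |u v + w v - (u (v + nb k) + w (v + nb k))| ≤ M)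
    (hW : ∀ v, |w v| ≤ W) (hθ : ∀ v, angSum (u + w) v = angSum u v) (v : ℤ × ℤ) :
    w (v + nb 0) = w v ∧ w (v + nb 1) = w v := by
  set δ := (w v - w (v + nb 0)) ^ 2 + (w v - w (v + nb 1)) ^ 2 with hδ
  have hδ0 : 0 ≤ δ := by positivity
  have key : δ = 0 := by
    by_contra hne
    have hδp : 0 < δ := lt_of_le_of_ne hδ0 (Ne.symm hne)
    have hk := kap_pos M
    -- choose K large
    obtain ⟨K, hK1, hK2⟩ : ∃ K : ℕ, 1 ≤ K ∧
        max (2 * hs (nrm v)) (16 * (W ^ 2 * 384) / (kap M * δ) + 1) ≤ hs K := by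
      have h1 := tendsto_hs.eventually_ge_atTop
        (max (2 * hs (nrm v)) (16 * (W ^ 2 * 384) / (kap M * δ) + 1))
      have h2 := Filter.eventually_ge_atTop (1 : ℕ)
      obtain ⟨K, a, b⟩ := (h1.and h2).exists
      exact ⟨K, b, a⟩
    have hp0 : 0 < hs K := by linarith [hs_pos hK1]
    have c1 : 1 / 2 ≤ cut K v := by
      have h1 := cut_ge K v
      have h2 : hs (nrm v) / hs K ≤ 1 / 2 := by
        rw [div_le_iff₀ hp0]
        have := (le_max_left _ _).trans hK2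
        linarith
      linarith
    have c2 := energy u w hM hM' hW hθ hK1 v
    have c3 : cut K v ^ 2 * δ ≤ qq w K v := by
      have : qq w K v = cut K v ^ 2 * δ + (cut K (v + nb 0) ^ 2 * (w v - w (v + nb 0)) ^ 2
        + (cut K (v + nb 0) ^ 2 + cut K (v + nb 1) ^ 2) * (w (v + nb 0) - w (v + nb 1)) ^ 2
        + cut K (v + nb 1) ^ 2 * (w v - w (v + nb 1)) ^ 2
        + (cut K v ^ 2 + cut K (v + nb 1) ^ 2) * (w v - w (v + nb 1)) ^ 2
        + (cut K (v + nb 1) ^ 2 + cut K (v + nb 2) ^ 2) * (w (v + nb 1) - w (v + nb 2)) ^ 2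
        + (cut K v ^ 2 + cut K (v + nb 2) ^ 2) * (w v - w (v + nb 2)) ^ 2) := by
        unfold qq; rw [hδ]; ring
      rw [this]
      have : 0 ≤ (cut K (v + nb 0) ^ 2 * (w v - w (v + nb 0)) ^ 2
        + (cut K (v + nb 0) ^ 2 + cut K (v + nb 1) ^ 2) * (w (v + nb 0) - w (v + nb 1)) ^ 2
        + cut K (v + nb 1) ^ 2 * (w v - w (v + nb 1)) ^ 2
        + (cut K v ^ 2 + cut K (v + nb 1) ^ 2) * (w v - w (v + nb 1)) ^ 2
        + (cut K (v + nb 1) ^ 2 + cut K (v + nb 2) ^ 2) * (w (v + nb 1) - w (v + nb 2)) ^ 2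
        + (cut K v ^ 2 + cut K (v + nb 2) ^ 2) * (w v - w (v + nb 2)) ^ 2) := by positivity
      linarith
    have c4 : 1 / 4 * δ ≤ cut K v ^ 2 * δ := by
      apply mul_le_mul_of_nonneg_right _ hδ0
      nlinarith
    have c5 : kap M * δ / 16 ≤ W ^ 2 * (384 / hs K) := by
      have := mul_le_mul_of_nonneg_left (c4.trans c3) (by positivity : 0 ≤ kap M / 4)
      linarith
    have c6 : 16 * (W ^ 2 * 384) / (kap M * δ) + 1 ≤ hs K := (le_max_right _ _).trans hK2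
    have hkd : 0 < kap M * δ := mul_pos hk hδp
    have c7 : kap M * δ / 16 * hs K ≤ W ^ 2 * 384 := by
      have := mul_le_mul_of_nonneg_right c5 hp0.le
      have e : W ^ 2 * (384 / hs K) * hs K = W ^ 2 * 384 := by field_simp
      rwa [e] at this
    have c8 := mul_le_mul_of_nonneg_left c6 hkd.le
    have e : kap M * δ * (16 * (W ^ 2 * 384) / (kap M * δ) + 1) = 16 * (W ^ 2 * 384) + kap M * δ := by
      field_simp
    rw [e] at c8
    linarith
  have h1 : (w v - w (v + nb 0)) ^ 2 = 0 := by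
    have a1 : 0 ≤ (w v - w (v + nb 0)) ^ 2 := sq_nonneg _
    have a2 : 0 ≤ (w v - w (v + nb 1)) ^ 2 := sq_nonneg _
    linarith
  have h2 : (w v - w (v + nb 1)) ^ 2 = 0 := by
    have a1 : 0 ≤ (w v - w (v + nb 0)) ^ 2 := sq_nonneg _
    linarith
  constructor
  · have := pow_eq_zero_iff (two_ne_zero) |>.mp h1
    linarith
  · have := pow_eq_zero_iff (two_ne_zero) |>.mp h2
    linarith

end

end Pool.Agent.H926Doyle
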