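import Mathlib

/-!
# Angles of triangles of mutually tangent circles, in logarithmic radii

`ang x y z` is the angle at the first circle of the triangle of three mutually tangent circles
with radii `exp x`, `exp y`, `exp z`.
-/

open Real

namespace Pool.Agent.H926Doyle

/-- The radius of the inscribed circle of the triangle of the three centres. -/
noncomputable def inr (x y z : ℝ) : ℝ :=
  exp ((x + y + z - log (exp x + exp y + exp z)) / 2)

/-- The angle at the first circle. -/
noncomputable def ang (x y z : ℝ) : ℝ :=
  2 * arctan (exp ((y + z - x - log (exp x + exp y + exp z)) / 2))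

theorem inr_pos (x y z : ℝ) : 0 < inr x y z := exp_pos _

theorem inr_sq (x y z : ℝ) :
    inr x y z ^ 2 * (exp x + exp y + exp z) = exp x * exp y * exp z := by
  have hS : 0 < exp x + exp y + exp z := by positivity
  unfold inr
  rw [← exp_nat_mul]
  have : ((2 : ℕ) : ℝ) * ((x + y + z - log (exp x + exp y + exp z)) / 2)
      = (x + y + z) - log (exp x + exp y + exp z) := by push_cast; ring
  rw [this, exp_sub, exp_log hS, exp_add, exp_add]
  field_simp

theorem inr_rot (x y z : ℝ) : inr y z x = inr x y z := by
  unfold inr
  rw [show y + z + x = x + y + z by ring,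
    show exp y + exp z + exp x = exp x + exp y + exp z by ring]

theorem exp_half (x y z : ℝ) :
    exp ((y + z - x - log (exp x + exp y + exp z)) / 2) = inr x y z / exp x := by
  unfold inr
  rw [← exp_sub]
  congr 1
  ring

theorem ang_eq (x y z : ℝ) : ang x y z = 2 * arctan (inr x y z / exp x) := by
  unfold ang
  rw [exp_half]

theorem ang_swap (x y z : ℝ) : ang x z y = ang x y z := by
  unfold ang
  rw [show z + y - x = y + z - x by ring,
    show exp x + exp z + exp y = exp x + exp y + exp z by ring]

theorem ang_pos (x y z : ℝ) : 0 < ang x y z := by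
  unfold ang
  have := arctan_pos.mpr (exp_pos ((y + z - x - log (exp x + exp y + exp z)) / 2))
  linarith

theorem ang_lt_pi (x y z : ℝ) : ang x y z < π := by
  unfold ang
  have := arctan_lt_pi_div_two (exp ((y + z - x - log (exp x + exp y + exp z)) / 2))
  linarith

/-- Derivative of the angle along a line. -/
theorem hasDerivAt_ang (x y z a b c t : ℝ) :
    HasDerivAt (fun t => ang (x + t * a) (y + t * b) (z + t * c))
      (inr (x + t * a) (y + t * b) (z + t * c) *
        ((b - a) / (exp (x + t * a) + exp (y + t * b)) +
          (c - a) / (exp (x + t * a) + exp (z + t * c)))) t := by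
  have hx : HasDerivAt (fun t : ℝ => x + t * a) a t := by
    simpa using ((hasDerivAt_id t).mul_const a).const_add x
  have hy : HasDerivAt (fun t : ℝ => y + t * b) b t := by
    simpa using ((hasDerivAt_id t).mul_const b).const_add y
  have hz : HasDerivAt (fun t : ℝ => z + t * c) c t := by
    simpa using ((hasDerivAt_id t).mul_const c).const_add z
  have hS : 0 < exp (x + t * a) + exp (y + t * b) + exp (z + t * c) := by positivity
  have hl := ((hx.exp.add hy.exp).add hz.exp).log hS.ne'
  have h1 := (((((hy.add hz).sub hx).sub hl).div_const 2).exp.arctan).const_mul 2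
  refine (h1.congr_deriv ?_)
  have e1 := exp_half (x + t * a) (y + t * b) (z + t * c)
  have e2 := inr_sq (x + t * a) (y + t * b) (z + t * c)
  have hp := inr_pos (x + t * a) (y + t * b) (z + t * c)
  simp only [Pi.add_apply, Pi.sub_apply] at *
  rw [e1]
  set p := inr (x + t * a) (y + t * b) (z + t * c) with hpdef
  set r := exp (x + t * a) with hr
  set s := exp (y + t * b) with hs
  set q := exp (z + t * c) with hq
  have hr0 : 0 < r := exp_pos _
  have hs0 : 0 < s := exp_pos _
  have hq0 : 0 < q := exp_pos _
  have hden : r ^ 2 + p ^ 2 = r * (r + s) * (r + q) / (r + s + q) := by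
    field_simp
    nlinarith [e2]
  have h3 : 1 / (1 + (p / r) ^ 2) = r ^ 2 / (r ^ 2 + p ^ 2) := by
    field_simp
  rw [h3, hden]
  field_simp
  ring

end Pool.Agent.H926Doyle
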